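import Pool.Agent.H41.Far

open Pool.Agent.H41.Far

theorem Pool.Agent.Results.MP_cccbef_lc.Disproof.result :
    ∃ P : (v : ℕ) → Set (SimpleGraph (Fin v)), IsProperty P ∧ ¬ Reduces P ∧
      ∀ (k : ℕ) (α : ℝ), α < 1 → ∃ v₀ : ℕ, ∀ v, v₀ ≤ v →
        ∃ G ∈ FarFrom ((1 / 2 ^ (k + 2) : ℝ) * (v.choose 2 : ℝ))
            (FarFrom ((1 / 2 ^ (k + 2) : ℝ) * (v.choose 2 : ℝ)) (P v)),
          ∀ H ∈ P v, α * ((1 / 2 ^ (k + 2) : ℝ) * (v.choose 2 : ℝ)) < (gdist G H : ℝ) :=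
  ⟨PP, PP_prop, not_reduces, strong⟩
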